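import Pool.Agent.Work.MP_8e3fb2_ag.AD.Final

/-!
# The accessory degree of the general sextic

Captain: helper92. Items: helper2, helper3, helper5, helper6, helper15, helper17, helper21, helper24,
helper30, helper37, helper42, helper43, helper45, helper47, helper51, helper52, helper57, helper65,
helper68, helper70, helper78, helper82, helper86, helper87, helper88, helper93, helper96 and
helper92. The block on formulas is by helper62 and others (AccessoryFunctions). Referees: helper94,
lead.

Idea of the proof of the lower bound. Let `M = K' L` be the splitting field over `K'`, `G` its Galois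
group over `K'`, `E ≤ M` a field of transcendence degree one which is stable under `G`, with `G`
faithful. The kernel of `E[x_1, ..., x_6] → M` is principal; the coefficients of its generator span a
finite dimensional space `W ≤ E` on which `G` acts linearly (not only projectively), and which has a
degree `k' ≤ [M : L]` as a linear system on the curve of `E` (Gauss lemma and the inequality of
Riemann). Eigenvectors of abelian subgroups have invariant divisors, stabilisers of places are cyclic:
so `12` divides `[S_6 : G] k'`, and if the product is `12` all the eigenspaces of the large abelian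
subgroups are so small that two elementary lemmas on representations of `S_6` and `A_6` give
`dim W ≤ 1`, a contradiction. The bound is attained by the fixed field of an icosahedral subgroup and
a quadratic extension over which the twisted conic has a point.
-/

set_option autoImplicit false

namespace Pool.Agent.Results.MP_8e3fb2_ag.AccessoryDegree

open Pool.Agent.Sextic Pool.Agent.Sextic.AD IntermediateField

/-- The degree of `K` over `K₀ = ℂ(a_1, ..., a_6)` (`0` if it is infinite). -/
noncomputable def deg (K : IntermediateField ℂ (Om 6)) : ℕ := relfinrank (base 6) K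

/-- `K` is a finite extension of `K₀`, and the splitting field of the general sextic over `K` has
essential dimension at most `1` over `K`. -/
def Acc (K : IntermediateField ℂ (Om 6)) : Prop :=
  base 6 ≤ K ∧ deg K ≠ 0 ∧ EdLE K (K ⊔ spl 6) 1

/-- (1) In every formula in algebraic functions of at most one variable for a root of the general
sextic there is a decisive function `L i₀ j₀` over a field `K i₀ 0`: the order of its monodromy group
is divisible by `360`, `K i₀ 0` is an extension of `K₀` as in `Acc`, and its degree over `K₀` is at
least `24`. (2) Every extension as in `Acc` has degree at least `24`. (3) There is one of degree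
`24`. -/
theorem result :
    (∀ (r : ℕ) (m : ℕ → ℕ) (K L : ℕ → ℕ → IntermediateField ℂ (Om 6)) (d : ℕ → ℕ → ℕ),
      Formula 6 r m K L d → (∀ i < r, ∀ j < m i, d i j ≤ 1) →
      ∃ i₀ < r, ∃ j₀ < m i₀, 360 ∣ monOrd (K i₀ 0) (L i₀ j₀) ∧ Acc (K i₀ 0) ∧
        24 ≤ deg (K i₀ 0)) ∧
    (∀ K : IntermediateField ℂ (Om 6), Acc K → 24 ≤ deg K) ∧
    ∃ K : IntermediateField ℂ (Om 6), Acc K ∧ deg K = 24 := by
  refine ⟨fun r m K L d hF hd => ?_, fun K hK => f_Low K hK.1 hK.2.1 hK.2.2, ?_⟩
  · obtain ⟨i₀, hi₀, j₀, hj₀, h1, h2, h3, -⟩ := f_Tow r m K L d hF hd
    have hmono : ∀ i < r, ∀ j ≤ m i, K i 0 ≤ K i j := by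
      intro i hi j
      induction j with
      | zero => exact fun _ => le_rfl
      | succ j ih =>
        intro hj
        rw [hF.step i hi j hj]
        exact (ih (Nat.le_of_succ_le hj)).trans le_sup_left
    have hb : ∀ i ≤ r, base 6 ≤ K i 0 := by
      intro i
      induction i with
      | zero => exact fun _ => hF.zero.ge
      | succ i ih =>
        intro hi
        rw [hF.next i hi]
        exact (ih (Nat.le_of_succ_le hi)).trans (hmono i hi (m i) le_rfl)
    refine ⟨i₀, hi₀, j₀, hj₀, h1, ⟨hb i₀ hi₀.le, ?_, h2⟩, h3⟩
    show relfinrank (base 6) (K i₀ 0) ≠ 0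
    omega
  · obtain ⟨K, h1, h2, h3⟩ := f_Up
    refine ⟨K, ⟨h1, ?_, h3⟩, h2⟩
    show relfinrank (base 6) K ≠ 0
    omega

end Pool.Agent.Results.MP_8e3fb2_ag.AccessoryDegree
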