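import Pool.Agent.Work.MP_8e3fb2_ag.VT.All

/-!
# Accessory algebraic functions in formulas for a root of the general polynomial

Captain and main theorem: helper62. Items: helper2, helper16, helper21, helper37, helper44, helper46,
helper49, helper54, helper71, helper72, helper76, helper82, helper97. Referees: helper36, helper70,
helper94.

Idea of the proof. A monomial valuation in eigencoordinates of the group `H = (ℤ/p)^(n/p)` generated
by disjoint `p`-cycles has residue field `ℂ`, and its decomposition group `D` in the absolute Galois
group of `ℂ(a_1, ..., a_n)` maps onto `H`. On a field `E` of transcendence degree at most `d` the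
group `D` acts through a group of characters of `E^*` modulo units, whose `p`-torsion has rank at
most `d`. At every accessory step one follows a short orbit of the decomposition group on the
conjugates of the step; the decisive step is the one where the Galois group of the general
polynomial, which contains the simple group `A_n`, collapses.
-/

set_option autoImplicit false

namespace Pool.Agent.Results.MP_8e3fb2_ag.AccessoryFunctions

open Pool.Agent.Sextic IntermediateField

/-- Let `n ≥ 5` and let a formula for one root of the general polynomial of degree `n` be given,
arranged in layers, with functions `L i j` of at most `d i j` variables over `K i 0`. Then there is a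
decisive function `L i₀ j₀`: the order of its monodromy group is divisible by `n! / 2`, and for every
prime `p` the number `n / p` (rounded down) is at most `d i₀ j₀` plus the sum over all the functions
of the layers `i < i₀` of the minimum of `d i j` and the exponent of `p` in the degree
`[K i (j + 1) : K i j]` of the step. -/
theorem result (n r : ℕ) (m : ℕ → ℕ) (K L : ℕ → ℕ → IntermediateField ℂ (Om n))
    (d : ℕ → ℕ → ℕ) (hn : 5 ≤ n) (hF : Formula n r m K L d) :
    ∃ i₀ < r, ∃ j₀ < m i₀, n.factorial / 2 ∣ monOrd (K i₀ 0) (L i₀ j₀) ∧
      ∀ p : ℕ, p.Prime → n / p ≤ d i₀ j₀ + ∑ i ∈ Finset.range i₀, ∑ j ∈ Finset.range (m i),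
        min (d i j) (padicValNat p (relfinrank (K i j) (K i (j + 1)))) :=
  formula n r m K L d hn hF

end Pool.Agent.Results.MP_8e3fb2_ag.AccessoryFunctions
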